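import Pool.Agent.L7h50.AG.Dir

/-! Measures with at most one positive atom are determined by the first three probabilities. -/

set_option autoImplicit false

namespace Pool.Agent.L7h66.AG

open MeasureTheory Set
open Pool.Agent.L7h50.AG

lemma nf (π : Measure ℝ) [IsProbabilityMeasure π] (a : ℝ) (h : ∀ᵐ u ∂π, u = 0 ∨ u = a) :
    ∃ m : ℝ, 0 ≤ m ∧ m ≤ 1 ∧
      π = ENNReal.ofReal (1 - m) • Measure.dirac 0 + ENNReal.ofReal m • Measure.dirac a := by
  by_cases ha : a = 0
  · refine ⟨0, le_rfl, zero_le_one, ?_⟩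
    have h1 : ∀ᵐ u ∂π, u ∈ ({0} : Set ℝ) := by
      filter_upwards [h] with u hu
      rcases hu with hu | hu
      · exact hu
      · rw [ha] at hu; exact hu
    have h2 := Measure.restrict_eq_self_of_ae_mem h1
    rw [Measure.restrict_singleton] at h2
    have h3 : π {0} = 1 := by
      rw [← prob_compl_eq_zero_iff (measurableSet_singleton _)]
      exact h1
    rw [h3, one_smul] at h2
    simp [← h2]
  · have h1 : ∀ᵐ u ∂π, u ∈ ({0} ∪ {a} : Set ℝ) := by
      filter_upwards [h] with u hu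
      exact hu
    have h2 := Measure.restrict_eq_self_of_ae_mem h1
    have hd : Disjoint ({0} : Set ℝ) {a} := by
      rw [Set.disjoint_singleton]
      exact fun h => ha h.symm
    rw [Measure.restrict_union hd (measurableSet_singleton _), Measure.restrict_singleton,
      Measure.restrict_singleton] at h2
    have h3 : π.real {0} + π.real {a} = 1 := by
      have h4 := congrArg (fun μ : Measure ℝ => μ.real univ) h2
      rw [← measureReal_union hd (measurableSet_singleton _)]
      rw [← probReal_univ (μ := π)]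
      apply measureReal_congr
      rw [Filter.eventuallyEq_univ]
      exact h1
    refine ⟨π.real {a}, measureReal_nonneg, by
      have h4 : 0 ≤ π.real {0} := measureReal_nonneg
      linarith, ?_⟩
    have h4 : 1 - π.real {a} = π.real {0} := by linarith
    rw [h4]
    unfold Measure.real
    rw [ENNReal.ofReal_toReal (measure_ne_top _ _), ENNReal.ofReal_toReal (measure_ne_top _ _)]
    exact h2.symm

lemma integ (a m : ℝ) (h0 : 0 ≤ m) (h1 : m ≤ 1) (g : ℝ → ℝ) :
    ∫ u, g u ∂(ENNReal.ofReal (1 - m) • Measure.dirac (0 : ℝ) +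
      ENNReal.ofReal m • Measure.dirac a) = (1 - m) * g 0 + m * g a := by
  rw [integral_add_measure, integral_smul_measure, integral_smul_measure, integral_dirac,
    integral_dirac, ENNReal.toReal_ofReal (by linarith), ENNReal.toReal_ofReal h0, smul_eq_mul,
    smul_eq_mul]
  · exact (integrable_dirac (by simp)).smul_measure ENNReal.ofReal_ne_top
  · exact (integrable_dirac (by simp)).smul_measure ENNReal.ofReal_ne_top

lemma vals (π : Measure ℝ) (a m : ℝ) (ha : 0 ≤ a) (h0 : 0 ≤ m) (h1 : m ≤ 1)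
    (h : π = ENNReal.ofReal (1 - m) • Measure.dirac 0 + ENNReal.ofReal m • Measure.dirac a) :
    ∫ s, P1 π s ∂π = 1 - m + m * Real.exp (-(a * m)) ∧
    ∫ s, P2 π s ∂π = a * (m * Real.exp (-(a * m))) ^ 2 ∧
    ∫ s, P3 π s ∂π = 3 / 2 * a ^ 2 * (m * Real.exp (-(a * m))) ^ 3 := by
  have hI : ∀ g : ℝ → ℝ, ∫ u, g u ∂π = (1 - m) * g 0 + m * g a := by
    intro g
    rw [h]
    exact integ a m h0 h1 g
  have m1 : min (0 : ℝ) a = 0 := min_eq_left ha
  have m2 : min a (0 : ℝ) = 0 := min_eq_right ha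
  have t0 : total π 0 = 0 := by
    unfold total
    rw [hI, m1, min_self]; ring
  have ta : total π a = a * m := by
    unfold total
    rw [hI, m2, min_self]; ring
  have p0 : P1 π 0 = 1 := by unfold P1; rw [t0, neg_zero, Real.exp_zero]
  have pa : P1 π a = Real.exp (-(a * m)) := by unfold P1; rw [ta]
  have k0 : ∫ u, min 0 u * P1 π u ∂π = 0 := by
    rw [hI, m1, min_self]; ring
  have ka : ∫ u, min a u * P1 π u ∂π = a * (m * Real.exp (-(a * m))) := by
    rw [hI, m2, min_self, pa]; ring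
  have q0 : P2 π 0 = 0 := by unfold P2; rw [k0, mul_zero]
  have qa : P2 π a = Real.exp (-(a * m)) * (a * (m * Real.exp (-(a * m)))) := by
    unfold P2; rw [ka, ta]
  have r0 : P3 π 0 = 0 := by
    unfold P3
    rw [k0, hI, m1, min_self]; ring
  have ra : P3 π a = Real.exp (-(a * m)) * ((a * (m * Real.exp (-(a * m)))) ^ 2 / 2 +
      m * (a * (Real.exp (-(a * m)) * (a * (m * Real.exp (-(a * m))))))) := by
    unfold P3
    rw [ka, ta, hI, m2, min_self, qa]; ring
  refine ⟨?_, ?_, ?_⟩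
  · rw [hI, p0, pa]; ring
  · rw [hI, q0, qa]; ring
  · rw [hI, r0, ra]; ring

theorem det (π π' : Measure ℝ) [IsProbabilityMeasure π] [IsProbabilityMeasure π'] (a a' : ℝ)
    (ha : 0 ≤ a) (ha' : 0 ≤ a') (hpi : ∀ᵐ u ∂π, u = 0 ∨ u = a) (hpi' : ∀ᵐ u ∂π', u = 0 ∨ u = a')
    (h1 : ∫ s, P1 π s ∂π = ∫ s, P1 π' s ∂π') (h2 : ∫ s, P2 π s ∂π = ∫ s, P2 π' s ∂π')
    (h3 : ∫ s, P3 π s ∂π = ∫ s, P3 π' s ∂π') : π = π' := by
  obtain ⟨m, m0, m1, hm⟩ := nf π a hpi
  obtain ⟨m', m0', m1', hm'⟩ := nf π' a' hpi'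
  obtain ⟨e1, e2, e3⟩ := vals π a m ha m0 m1 hm
  obtain ⟨f1, f2, f3⟩ := vals π' a' m' ha' m0' m1' hm'
  rw [e1, f1] at h1
  rw [e2, f2] at h2
  rw [e3, f3] at h3
  set y := m * Real.exp (-(a * m)) with hy
  set y' := m' * Real.exp (-(a' * m')) with hy'
  have triv : ∀ (b k : ℝ), 0 ≤ k → k ≤ 1 → (b = 0 ∨ k = 0) →
      ENNReal.ofReal (1 - k) • Measure.dirac (0 : ℝ) + ENNReal.ofReal k • Measure.dirac b =
        Measure.dirac 0 := by
    rintro b k hk0 hk1 (rfl | rfl)
    · rw [← add_smul, ← ENNReal.ofReal_add (by linarith) hk0, sub_add_cancel, ENNReal.ofReal_one,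
        one_smul]
    · simp
  have zero : ∀ (b k : ℝ), b * (k * Real.exp (-(b * k))) ^ 2 = 0 → b = 0 ∨ k = 0 := by
    intro b k hbk
    rcases mul_eq_zero.1 hbk with h | h
    · exact Or.inl h
    · right
      have h4 := pow_eq_zero_iff (two_ne_zero) |>.1 h
      rcases mul_eq_zero.1 h4 with h5 | h5
      · exact h5
      · exact absurd h5 (Real.exp_ne_zero _)
  by_cases hv : a * y ^ 2 = 0
  · have hv' : a' * y' ^ 2 = 0 := by rw [← h2]; exact hv
    rw [hm, hm', triv a m m0 m1 (zero a m hv), triv a' m' m0' m1' (zero a' m' hv')]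
  · have hv' : a' * y' ^ 2 ≠ 0 := by rw [← h2]; exact hv
    have ha0 : a ≠ 0 := left_ne_zero_of_mul hv
    have hy0 : y ≠ 0 := fun h => hv (by rw [h]; ring)
    have ha0' : a' ≠ 0 := left_ne_zero_of_mul hv'
    have hy0' : y' ≠ 0 := fun h => hv' (by rw [h]; ring)
    have g1 : a * y = a' * y' := by
      have h4 : (a * y ^ 2) * (a * y) = (a * y ^ 2) * (a' * y') := by
        calc (a * y ^ 2) * (a * y) = a ^ 2 * y ^ 3 := by ring
          _ = a' ^ 2 * y' ^ 3 := by linarith
          _ = (a' * y' ^ 2) * (a' * y') := by ring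
          _ = (a * y ^ 2) * (a' * y') := by rw [h2]
      exact mul_left_cancel₀ hv h4
    have g2 : y = y' := by
      have h4 : (a * y) * y = (a * y) * y' := by
        calc (a * y) * y = a * y ^ 2 := by ring
          _ = a' * y' ^ 2 := h2
          _ = (a' * y') * y' := by ring
          _ = (a * y) * y' := by rw [g1]
      exact mul_left_cancel₀ (mul_ne_zero ha0 hy0) h4
    have g3 : a = a' := by
      rw [g2] at g1
      exact mul_right_cancel₀ hy0' g1
    have g4 : m = m' := by linarith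
    rw [hm, hm', g3, g4]

end Pool.Agent.L7h66.AG
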