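import Mathlib

/-! The kernel `min s u` is positive semidefinite. -/

set_option autoImplicit false

namespace Pool.Agent.L7h66.AG

open MeasureTheory Filter Topology Set

/-- The integrand with the third variable. -/
noncomputable def G (f : ℝ → ℝ) (p : ℝ × ℝ × ℝ) : ℝ :=
  (if p.1 < p.2.1 then f p.2.1 else 0) * (if p.1 < p.2.2 then f p.2.2 else 0)

lemma G_meas (f : ℝ → ℝ) (hf : Measurable f) : Measurable (G f) := by
  unfold G
  refine Measurable.mul ?_ ?_
  · exact Measurable.ite (measurableSet_lt measurable_fst measurable_snd.fst)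
      (hf.comp measurable_snd.fst) measurable_const
  · exact Measurable.ite (measurableSet_lt measurable_fst measurable_snd.snd)
      (hf.comp measurable_snd.snd) measurable_const

lemma G_int (π : Measure ℝ) [IsProbabilityMeasure π] (f : ℝ → ℝ) (hf : Measurable f)
    (hf1 : Integrable f π) (ν : Measure ℝ) [IsFiniteMeasure ν] :
    Integrable (G f) (ν.prod (π.prod π)) := by
  have h1 : Integrable (fun z : ℝ × ℝ => f z.1 * f z.2) (π.prod π) := hf1.mul_prod hf1
  have h2 : Integrable (fun p : ℝ × ℝ × ℝ => f p.2.1 * f p.2.2) (ν.prod (π.prod π)) :=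
    h1.comp_snd ν
  refine h2.mono (G_meas f hf).aestronglyMeasurable (Eventually.of_forall fun p => ?_)
  unfold G
  rw [norm_mul, norm_mul]
  gcongr
  · split_ifs
    · exact le_rfl
    · simp
  · split_ifs
    · exact le_rfl
    · simp

lemma G_inner (f : ℝ → ℝ) (ν : Measure ℝ) (z : ℝ × ℝ) :
    ∫ t, G f (t, z) ∂ν = ν.real (Iio (min z.1 z.2)) * (f z.1 * f z.2) := by
  have h1 : (fun t => G f (t, z)) =
      (Iio (min z.1 z.2)).indicator (fun _ => f z.1 * f z.2) := by
    ext t
    unfold G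
    by_cases ha : t < z.1 <;> by_cases hb : t < z.2 <;>
      simp [Set.indicator, ha, hb]
  rw [h1, integral_indicator_const _ measurableSet_Iio, smul_eq_mul]

theorem frm (π : Measure ℝ) [IsProbabilityMeasure π] (h0 : ∀ᵐ u ∂π, 0 ≤ u) (f : ℝ → ℝ)
    (hf : Measurable f)
    (hi : Integrable (Function.uncurry fun s u : ℝ => f s * (min s u * f u)) (π.prod π))
    (hf1 : Integrable f π) : 0 ≤ ∫ s, ∫ u, f s * (min s u * f u) ∂π ∂π := by
  have hK : ∫ s, ∫ u, f s * (min s u * f u) ∂π ∂π =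
      ∫ z, Function.uncurry (fun s u : ℝ => f s * (min s u * f u)) z ∂(π.prod π) :=
    (integral_prod _ hi).symm
  rw [hK]
  set ν : ℕ → Measure ℝ := fun T => volume.restrict (Ioc 0 (T : ℝ)) with hν
  have hfin : ∀ T, IsFiniteMeasure (ν T) := by
    intro T
    rw [hν]
    exact ⟨by simp⟩
  have hpos : ∀ T : ℕ, 0 ≤ ∫ z, (∫ t, G f (t, z) ∂(ν T)) ∂(π.prod π) := by
    intro T
    have := hfin T
    have h1 : ∫ z, (∫ t, G f (t, z) ∂(ν T)) ∂(π.prod π) =
        ∫ t, (∫ z, G f (t, z) ∂(π.prod π)) ∂(ν T) :=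
      (integral_integral_swap (f := fun t z => G f (t, z)) (G_int π f hf hf1 (ν T))).symm
    rw [h1]
    apply integral_nonneg
    intro t
    have h2 : ∫ z : ℝ × ℝ, G f (t, z) ∂(π.prod π) =
        (∫ s, (if t < s then f s else 0) ∂π) * ∫ s, (if t < s then f s else 0) ∂π :=
      integral_prod_mul (fun s => if t < s then f s else 0) (fun s => if t < s then f s else 0)
    show 0 ≤ ∫ z : ℝ × ℝ, G f (t, z) ∂(π.prod π)
    rw [h2]
    exact mul_self_nonneg _
  have hm : ∀ (T : ℕ) (m : ℝ), 0 ≤ m → (ν T).real (Iio m) ≤ m := by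
    intro T m hm
    rw [hν]
    beta_reduce
    rw [measureReal_restrict_apply measurableSet_Iio]
    have h1 : Iio m ∩ Ioc 0 (T : ℝ) ⊆ Ioo 0 m := fun x hx => ⟨hx.2.1, hx.1⟩
    have h2 := measureReal_mono (μ := (volume : Measure ℝ)) h1 measure_Ioo_lt_top.ne
    rwa [Real.volume_real_Ioo_of_le hm, sub_zero] at h2
  have hm' : ∀ (T : ℕ) (m : ℝ), 0 ≤ m → m ≤ T → (ν T).real (Iio m) = m := by
    intro T m hm hT
    rw [hν]
    beta_reduce
    rw [measureReal_restrict_apply measurableSet_Iio]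
    have h1 : Iio m ∩ Ioc 0 (T : ℝ) = Ioo 0 m := by
      ext x
      constructor
      · rintro ⟨h1, h2, _⟩; exact ⟨h2, h1⟩
      · rintro ⟨h1, h2⟩; exact ⟨h2, h1, (h2.trans_le hT).le⟩
    rw [h1, Real.volume_real_Ioo_of_le hm, sub_zero]
  have hae : ∀ᵐ z ∂(π.prod π), 0 ≤ z.1 ∧ 0 ≤ z.2 := by
    have h1 : ∀ᵐ z ∂(π.prod π), 0 ≤ z.1 := Measure.quasiMeasurePreserving_fst.ae h0
    have h2 : ∀ᵐ z ∂(π.prod π), 0 ≤ z.2 := Measure.quasiMeasurePreserving_snd.ae h0
    filter_upwards [h1, h2] with z h3 h4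
    exact ⟨h3, h4⟩
  have hlim : Tendsto (fun T : ℕ => ∫ z, (∫ t, G f (t, z) ∂(ν T)) ∂(π.prod π)) atTop
      (𝓝 (∫ z, Function.uncurry (fun s u : ℝ => f s * (min s u * f u)) z ∂(π.prod π))) := by
    refine tendsto_integral_of_dominated_convergence
      (fun z => ‖Function.uncurry (fun s u : ℝ => f s * (min s u * f u)) z‖) ?_ hi.norm ?_ ?_
    · intro T
      have := hfin T
      exact (G_int π f hf hf1 (ν T)).integral_prod_right.aestronglyMeasurable
    · intro T
      filter_upwards [hae] with z hz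
      have h1 := le_min hz.1 hz.2
      rw [G_inner]
      simp only [Function.uncurry]
      rw [norm_mul, norm_mul, norm_mul, norm_mul, Real.norm_of_nonneg measureReal_nonneg,
        Real.norm_of_nonneg h1]
      have h2 := hm T _ h1
      calc (ν T).real (Iio (min z.1 z.2)) * (‖f z.1‖ * ‖f z.2‖)
          ≤ min z.1 z.2 * (‖f z.1‖ * ‖f z.2‖) := by gcongr
        _ = ‖f z.1‖ * (min z.1 z.2 * ‖f z.2‖) := by ring
    · filter_upwards [hae] with z hz
      have h1 := le_min hz.1 hz.2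
      apply tendsto_const_nhds.congr'
      obtain ⟨N, hN⟩ := exists_nat_ge (min z.1 z.2)
      filter_upwards [eventually_ge_atTop N] with T hT
      rw [G_inner, hm' T _ h1 (hN.trans (by exact_mod_cast hT))]
      simp only [Function.uncurry]
      ring
  exact ge_of_tendsto' hlim hpos

end Pool.Agent.L7h66.AG
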